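import Mathlib

/-!
The combinatorial core: a cube of dimension `k + 1` cannot be separated by `k` labellings with
branches of a tree.
-/

set_option autoImplicit false

namespace Pool.Agent.Q103.TG

variable {ι κ : Type} [Fintype ι] [DecidableEq ι] [DecidableEq κ]

/-- The subcube of all points which agree with `c` outside of `J`. -/
def Cube (J : Finset ι) (c : ι → Bool) : Set (ι → Bool) := {s | ∀ l, l ∉ J → s l = c l}

omit [Fintype ι] in
theorem update_mem {J : Finset ι} {c s : ι → Bool} (hs : s ∈ Cube J c) {j : ι} (hj : j ∈ J)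
    (b : Bool) : Function.update s j b ∈ Cube J c := by
  intro l hl
  have : l ≠ j := fun h => hl (h ▸ hj)
  rw [Function.update_of_ne this]
  exact hs l hl

/-- The shortest prefix outside of a prefix closed set. -/
theorem shortest {N : Set (List ℕ)} {σ : List ℕ} (hσ : σ ∉ N) :
    ∃ τ, τ <+: σ ∧ τ ∉ N ∧ ∀ ρ, ρ <+: τ → ρ ≠ τ → ρ ∈ N := by
  classical
  have hex : ∃ n, ∃ τ, τ <+: σ ∧ τ ∉ N ∧ τ.length = n := ⟨_, σ, List.prefix_rfl, hσ, rfl⟩
  obtain ⟨τ, h1, h2, h3⟩ := Nat.find_spec hex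
  refine ⟨τ, h1, h2, fun ρ hρ hne => ?_⟩
  by_contra hc
  have hlt : ρ.length < τ.length := by
    rcases lt_or_eq_of_le hρ.length_le with h | h
    · exact h
    · exact absurd (hρ.eq_of_length h) hne
  exact Nat.find_min hex (h3 ▸ hlt) ⟨ρ, hρ.trans h1, hc, rfl⟩

theorem core (I : Finset κ) : ∀ (J : Finset ι) (c : ι → Bool) (N : κ → (ι → Bool) → Set (List ℕ)),
    (∀ i s σ τ, σ ∈ N i s → τ <+: σ → τ ∈ N i s) →
    (∀ i s σ τ, σ ∈ N i s → τ ∈ N i s → σ <+: τ ∨ τ <+: σ) →
    (∀ s ∈ Cube J c, ∀ j ∈ J, ∃ i ∈ I, ∃ σ, σ ∉ N i s ∧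
      ∀ t ∈ Cube J c, t j ≠ s j → σ ∈ N i t) → J.card ≤ I.card := by
  classical
  induction I using Finset.induction_on with
  | empty =>
    intro J c N _ _ h
    rcases J.eq_empty_or_nonempty with rfl | ⟨j, hj⟩
    · simp
    · obtain ⟨i, hi, _⟩ := h c (fun _ _ => rfl) j hj
      simp at hi
  | insert i₀ I hi₀ ih =>
    intro J c N hcl hch h
    -- the lengths of the minimal separators for the index `i₀`
    let V : Set ℕ := {n | ∃ s ∈ Cube J c, ∃ j ∈ J, ∃ σ : List ℕ, σ.length = n ∧ σ ∉ N i₀ s ∧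
      (∀ ρ, ρ <+: σ → ρ ≠ σ → ρ ∈ N i₀ s) ∧ ∀ t ∈ Cube J c, t j ≠ s j → σ ∈ N i₀ t}
    have hfin : V.Finite := by
      have : V ⊆ ⋃ p : (ι → Bool) × ι, {n | p.1 ∈ Cube J c ∧ p.2 ∈ J ∧ ∃ σ : List ℕ,
          σ.length = n ∧ σ ∉ N i₀ p.1 ∧ (∀ ρ, ρ <+: σ → ρ ≠ σ → ρ ∈ N i₀ p.1) ∧
          ∀ t ∈ Cube J c, t p.2 ≠ p.1 p.2 → σ ∈ N i₀ t} := by
        rintro n ⟨s, hs, j, hj, hσ⟩
        exact Set.mem_iUnion.2 ⟨(s, j), hs, hj, hσ⟩
      refine (Set.finite_iUnion fun p => ?_).subset this
      apply Set.Subsingleton.finite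
      rintro n ⟨hs, hj, σ, rfl, h1, h2, h3⟩ m ⟨_, _, τ, rfl, h1', h2', h3'⟩
      have ht := update_mem hs hj (!p.1 p.2)
      have hne : Function.update p.1 p.2 (!p.1 p.2) p.2 ≠ p.1 p.2 := by simp
      rcases hch _ _ _ _ (h3 _ ht hne) (h3' _ ht hne) with hp | hp
      · by_contra hlen
        exact h1 (h2' σ hp (fun e => hlen (by rw [e])))
      · by_contra hlen
        exact h1' (h2 τ hp (fun e => hlen (by rw [e])))
    rcases V.eq_empty_or_nonempty with hV | hV
    · -- the index `i₀` is never used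
      have := ih J c N hcl hch (by
        intro s hs j hj
        obtain ⟨i, hi, σ, h1, h2⟩ := h s hs j hj
        rcases Finset.mem_insert.1 hi with rfl | hi
        · exfalso
          obtain ⟨τ, hτ1, hτ2, hτ3⟩ := shortest h1
          have : τ.length ∈ V := ⟨s, hs, j, hj, τ, rfl, hτ2, hτ3, fun t ht hne =>
            hcl _ _ _ _ (h2 t ht hne) hτ1⟩
          rw [hV] at this
          exact this
        · exact ⟨i, hi, σ, h1, h2⟩)
      rw [Finset.card_insert_of_notMem hi₀]
      omega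
    · obtain ⟨s₀, hs₀, l, hl, σ₀, hlen, _, _, h3⟩ := Nat.sSup_mem hV hfin.bddAbove
      have hmax : ∀ n ∈ V, n ≤ σ₀.length := fun n hn => hlen ▸ le_csSup hfin.bddAbove hn
      have key := ih (J.erase l) (Function.update c l (!s₀ l)) N hcl hch (by
        intro s hs j hj
        have hjl : j ≠ l := Finset.ne_of_mem_erase hj
        have hjJ : j ∈ J := Finset.mem_of_mem_erase hj
        have hsub : ∀ t ∈ Cube (J.erase l) (Function.update c l (!s₀ l)), t ∈ Cube J c := by
          intro t ht m hm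
          have hml : m ≠ l := fun e => hm (e ▸ hl)
          have := ht m (fun h' => hm (Finset.mem_of_mem_erase h'))
          rwa [Function.update_of_ne hml] at this
        have hsl : s l = !s₀ l := by
          have := hs l (Finset.notMem_erase l J)
          rwa [Function.update_self] at this
        obtain ⟨i, hi, σ, h1, h2⟩ := h s (hsub s hs) j hjJ
        rcases Finset.mem_insert.1 hi with rfl | hi
        · exfalso
          obtain ⟨τ, hτ1, hτ2, hτ3⟩ := shortest h1
          have hτ4 : ∀ t ∈ Cube J c, t j ≠ s j → τ ∈ N i t := fun t ht hne =>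
            hcl _ _ _ _ (h2 t ht hne) hτ1
          have hτV : τ.length ≤ σ₀.length :=
            hmax _ ⟨s, hsub s hs, j, hjJ, τ, rfl, hτ2, hτ3, hτ4⟩
          let t := Function.update s j (!s j)
          have ht : t ∈ Cube J c := update_mem (hsub s hs) hjJ _
          have htj : t j ≠ s j := by simp [t]
          have htl : t l = s l := by simp [t, Function.update_of_ne hjl.symm]
          have e1 : σ₀ ∈ N i t := h3 t ht (by rw [htl, hsl]; simp)
          have e2 : σ₀ ∈ N i s := h3 s (hsub s hs) (by rw [hsl]; simp)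
          have e3 : τ ∈ N i t := hτ4 t ht htj
          rcases hch _ _ _ _ e1 e3 with hp | hp
          · have : σ₀ = τ := hp.eq_of_length (le_antisymm hp.length_le hτV)
            exact hτ2 (this ▸ e2)
          · exact hτ2 (hcl _ _ _ _ e2 hp)
        · exact ⟨i, hi, σ, h1, fun t ht hne => h2 t (hsub t ht) hne⟩)
      rw [Finset.card_erase_of_mem hl] at key
      rw [Finset.card_insert_of_notMem hi₀]
      omega

end Pool.Agent.Q103.TG
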